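import Mathlib
import Pool.Agent.H24.FD.R

set_option autoImplicit false

/-!
# All graphs with the most proper q-colourings in the dense range

For `q ≥ 2`, all `n` and all `m` with `turanNum n (q - 1) < m ≤ turanNum n q` we determine all graphs with
`n` vertices and `m` edges which have the maximum number of proper `q`-colourings.

Idea: such a graph `G` contains a clique `x_1, …, x_q`. If the lists `{i : x_i y not an edge}` of the vertices
`y` have `n + t` elements together, then equality in the product bound shows that all lists have one or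
two elements and that all choices are colourings: this is the first family. Otherwise some `x_i` has so many
non-neighbours that `G - x_i` satisfies the same inequality between `n`, `m` and `t`, and then *every* colouring
of `G - x_i` extends to `G`. So `x_i` can be added to `G - x_i` in very few ways.
-/

namespace Pool.Agent.Results.MP_e806f7_co.DenseExtremal

/-- The number of edges of the Turán graph with `n` vertices and `r` classes. -/
noncomputable def turanNum (n r : ℕ) : ℕ := (SimpleGraph.turanGraph n r).edgeSet.ncard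

/-- The number of proper `q`-colourings of `G`. -/
noncomputable def colourings {n : ℕ} (G : SimpleGraph (Fin n)) (q : ℕ) : ℕ :=
  Nat.card (G.Coloring (Fin q))

/-- `G` has the maximum number of proper `q`-colourings among the graphs with the same number of vertices
and the same number of edges. -/
def IsExtremal {n : ℕ} (G : SimpleGraph (Fin n)) (q : ℕ) : Prop :=
  ∀ H : SimpleGraph (Fin n), H.edgeSet.ncard = G.edgeSet.ncard → colourings H q ≤ colourings G q

/-- The first family: every vertex `v` has one or two allowed colours `c₁ v`, `c₂ v`, exactly `t` vertices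
have two of them, and two adjacent vertices have no allowed colour in common. -/
def FamilyOne {n : ℕ} (G : SimpleGraph (Fin n)) (q t : ℕ) : Prop :=
  ∃ c₁ c₂ : Fin n → Fin q,
    (∀ u v, G.Adj u v → c₁ u ≠ c₁ v ∧ c₁ u ≠ c₂ v ∧ c₂ u ≠ c₁ v ∧ c₂ u ≠ c₂ v) ∧
    (Finset.univ.filter fun v => c₁ v ≠ c₂ v).card = t

/-- The second family: `G` has a proper `q`-colouring `c` such that the union of two of its classes `a ≠ b`
induces a subgraph with exactly `t + 1` connected components. -/
def FamilyTwo {n : ℕ} (G : SimpleGraph (Fin n)) (q t : ℕ) : Prop :=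
  ∃ (c : Fin n → Fin q) (a b : Fin q), a ≠ b ∧ (∀ u v, G.Adj u v → c u ≠ c v) ∧
    Nat.card (G.induce {v | c v = a ∨ c v = b}).ConnectedComponent = t + 1

open Pool.Agent.H24.FD

lemma colourings_eq {n : ℕ} (G : SimpleGraph (Fin n)) (q : ℕ) :
    colourings G q = Nat.card {c : Fin n → Fin q // ∀ u v, G.Adj u v → c u ≠ c v} := by
  unfold colourings
  refine Nat.card_congr ⟨fun C => ⟨fun v => C v, fun u v h => C.valid h⟩,
    fun c => SimpleGraph.Coloring.mk c.1 (fun {u v} h => c.2 u v h), fun C => ?_, fun c => rfl⟩
  exact RelHom.ext fun v => rfl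

lemma turan_eq (n r : ℕ) (hr : 1 ≤ r) : turanNum n r + T r n = n.choose 2 := by
  classical
  unfold turanNum
  rw [← SimpleGraph.coe_edgeFinset, Set.ncard_coe_finset]
  exact T_turan r hr n

lemma comp_const {n q : ℕ} {G : SimpleGraph (Fin n)} {c : Fin n → Fin q} {a b : Fin q}
    {ι : Type*} {κ : Fin n → ι}
    (hκ : ∀ y z, G.Adj y z → (c y = a ∨ c y = b) → (c z = a ∨ c z = b) → κ y = κ z)
    (u v : {v | c v = a ∨ c v = b})
    (h : (G.induce {v | c v = a ∨ c v = b}).Reachable u v) : κ u = κ v := by
  obtain ⟨p⟩ := h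
  induction p with
  | nil => rfl
  | @cons u v w h p ih => exact (hκ u.1 v.1 h u.2 v.2).trans ih

/-- every component but one can be recoloured -/
lemma comp_ge {n q : ℕ} {G : SimpleGraph (Fin n)} {x : Fin q → Fin n}
    (hx : ∀ i j, i ≠ j → G.Adj (x i) (x j)) (c : Fin n → Fin q) (a b : Fin q) (hab : a ≠ b)
    (hc : ∀ u v, G.Adj u v → c u ≠ c v) :
    2 ^ (Nat.card (G.induce {v | c v = a ∨ c v = b}).ConnectedComponent - 1) ≤ colNum G q := by
  classical
  have hfi : Fintype (G.induce {v | c v = a ∨ c v = b}).ConnectedComponent :=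
    Fintype.ofFinite _
  obtain ⟨μ, hμ⟩ : ∃ μ : Fin n → Option (G.induce {v | c v = a ∨ c v = b}).ConnectedComponent,
      ∀ (y : Fin n) (hy : y ∈ {v | c v = a ∨ c v = b}),
      μ y = some ((G.induce {v | c v = a ∨ c v = b}).connectedComponentMk ⟨y, hy⟩) :=
    ⟨fun y => if hy : y ∈ {v | c v = a ∨ c v = b} then
      some ((G.induce {v | c v = a ∨ c v = b}).connectedComponentMk ⟨y, hy⟩) else none,
      fun y hy => dif_pos hy⟩
  have h5 := b_ge hx c μ a b hab hc (by
    intro y z hyz hy hz
    have h6 : (G.induce {v | c v = a ∨ c v = b}).Adj ⟨y, hy⟩ ⟨z, hz⟩ := hyz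
    rw [hμ y hy, hμ z hz, Option.some_inj, SimpleGraph.ConnectedComponent.eq]
    exact h6.reachable)
    (Finset.univ.map Function.Embedding.some) (by
      intro w hw
      rw [Finset.mem_map] at hw
      obtain ⟨K, _, rfl⟩ := hw
      obtain ⟨y, rfl⟩ := K.exists_rep
      exact ⟨y.1, y.2, hμ y.1 y.2⟩)
  rw [Finset.card_map, Finset.card_univ, ← Nat.card_eq_fintype_card] at h5
  exact h5

/-- **Theorem.** Let `q ≥ 2` and `turanNum n (q - 1) < m ≤ turanNum n q`. There is a greatest integer `t` with
`(q - 1) t ≤ n` and `m + n t ≤ turanNum (n + t) q`, and the graphs with `n` vertices and `m` edges which have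
the maximum number of proper `q`-colourings are exactly the graphs with `n` vertices and `m` edges in
the two families. -/
theorem result (n m q : ℕ) (hq : 2 ≤ q) (h1 : turanNum n (q - 1) < m) (h2 : m ≤ turanNum n q) :
    ∃ t, IsGreatest {s | (q - 1) * s ≤ n ∧ m + n * s ≤ turanNum (n + s) q} t ∧
      ∀ G : SimpleGraph (Fin n), G.edgeSet.ncard = m →
        (IsExtremal G q ↔ FamilyOne G q t ∨ FamilyTwo G q t) := by
  classical
  have hex : ∃ t, IsGreatest {s | (q - 1) * s ≤ n ∧ m + n * s ≤ turanNum (n + s) q} t := by
    have hfin : {s | (q - 1) * s ≤ n ∧ m + n * s ≤ turanNum (n + s) q}.Finite := by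
      apply Set.Finite.subset (Set.finite_Iic n)
      intro s hs
      have h3 : s ≤ (q - 1) * s := Nat.le_mul_of_pos_left s (by omega)
      exact h3.trans hs.1
    obtain ⟨t, ht1, ht2⟩ := Set.exists_max_image _ id hfin ⟨0, by simp, by simpa using h2⟩
    exact ⟨t, ht1, fun s hs => ht2 s hs⟩
  obtain ⟨t, ht⟩ := hex
  refine ⟨t, ht, ?_⟩
  have e1 := turan_eq n (q - 1) (by omega)
  have e2 := turan_eq (n + t) q (by omega)
  have e3 := turan_eq (n + (t + 1)) q (by omega)
  have c1 := choose_add_two n t
  have c2 := choose_add_two n (t + 1)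
  obtain ⟨⟨ht1, ht2⟩, ht3⟩ := ht
  have hlow : m + T q (n + t) ≤ n.choose 2 + t.choose 2 := by omega
  have hn : (q - 1) * t + 1 ≤ n := range_lower hq (by omega) ht1 hlow
  have hH : n.choose 2 + (t + 1).choose 2 < m + T q (n + (t + 1)) := by
    rcases Nat.lt_or_ge n ((q - 1) * (t + 1)) with h3 | h3
    · exact range_upper hq (by omega) ht1 h3
    · by_contra hcon
      have h4 : t + 1 ≤ t := ht3 ⟨h3, by
        have : n * (t + 1) = n * t + n := by ring
        omega⟩
      omega
  -- graphs with `m` edges
  have hclique : ∀ G : SimpleGraph (Fin n), G.edgeSet.ncard = m → ¬ G.CliqueFree q := by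
    intro G hG
    refine not_free hq (Fintype.card_fin n) G (t := t) ?_
    rw [← hG, ← SimpleGraph.coe_edgeFinset, Set.ncard_coe_finset] at hH
    exact lt_of_lt_of_le hH (le_of_eq (congrArg (· + T q (n + (t + 1))) (card_edge_inst _ _ _)))
  have hnum : ∀ G : SimpleGraph (Fin n), G.edgeSet.ncard = m →
      colourings G q = q.factorial * colNum G q := by
    intro G hG
    rw [colourings_eq, num_eq (hclique G hG)]
  have hup : ∀ G : SimpleGraph (Fin n), G.edgeSet.ncard = m → colNum G q ≤ 2 ^ t := by
    intro G hG
    exact colNum_le_of hq G (by rw [hG]; exact hH)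
  obtain ⟨H, hHm, hHc⟩ : ∃ H : SimpleGraph (Fin n), H.edgeSet.ncard = m ∧ 2 ^ t ≤ colNum H q := by
    obtain ⟨G0, hG0, hG1⟩ := exists_graph q n t hq hn
    have hG2 : m ≤ G0.edgeSet.ncard := by
      rw [← SimpleGraph.coe_edgeFinset, Set.ncard_coe_finset]
      have hG3 := hG1.trans (le_of_eq (congrArg (· + T q (n + t))
        (card_edge_inst G0 _ (SimpleGraph.fintypeEdgeSet G0))))
      change n.choose 2 + t.choose 2 ≤ _ + T q (n + t) at hG3
      refine le_trans (b := (@SimpleGraph.edgeFinset _ G0 (SimpleGraph.fintypeEdgeSet G0)).card)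
        (by omega) (le_of_eq (card_edge_inst _ _ _))
    obtain ⟨H, hHle, hHm⟩ := exists_sub_edges G0 m hG2
    exact ⟨H, hHm, hG0.trans (colNum_anti q hHle)⟩
  have hfac : 0 < q.factorial := Nat.factorial_pos q
  -- the graphs in the families have enough colourings
  have hfam : ∀ G : SimpleGraph (Fin n), G.edgeSet.ncard = m →
      (IsExtremal G q ↔ 2 ^ t ≤ colNum G q) := by
    intro G hG
    constructor
    · intro h
      have h3 := h H (hHm.trans hG.symm)
      rw [hnum H hHm, hnum G hG] at h3
      exact hHc.trans (Nat.le_of_mul_le_mul_left h3 hfac)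
    · intro h K hK
      rw [hnum K (hK.trans hG), hnum G hG]
      exact Nat.mul_le_mul_left _ ((hup K (hK.trans hG)).trans h)
  intro G hG
  rw [hfam G hG]
  have hcl := hclique G hG
  have hcl2 := hcl
  rw [SimpleGraph.not_cliqueFree_iff_top_isContained] at hcl2
  obtain ⟨f⟩ := hcl2
  have hx : ∀ i j : Fin q, i ≠ j → G.Adj (f i) (f j) := fun i j hij => f.toHom.map_adj hij
  constructor
  · intro h
    have hH2 : n.choose 2 + (t + 1).choose 2
        < (@SimpleGraph.edgeFinset _ G (Fintype.ofFinite _)).card + T q (n + (t + 1)) := by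
      rw [← hG, ← SimpleGraph.coe_edgeFinset, Set.ncard_coe_finset] at hH
      exact lt_of_lt_of_le hH (le_of_eq (congrArg (· + T q (n + (t + 1))) (card_edge_inst _ _ _)))
    rcases dense_shape q t hq n (Fin n) (Fintype.card_fin n) G h
      (lt_of_lt_of_le hH2 (le_of_eq (congrArg (· + T q (n + (t + 1)))
        (card_edge_inst _ _ _)))) with hA | hB
    · left
      obtain ⟨c₁, c₂, h3, h4⟩ := hA
      refine ⟨c₁, c₂, fun u v => h3 u (Finset.mem_univ _) v (Finset.mem_univ _), ?_⟩
      rw [← h4]
    · right
      obtain ⟨c, κ, a, b, hab, h3, h4, S, hS, hSw⟩ := hB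
      have h3' : ∀ u v, G.Adj u v → c u ≠ c v :=
        fun u v => h3 u (Finset.mem_univ _) v (Finset.mem_univ _)
      have h4' : ∀ y z, G.Adj y z → (c y = a ∨ c y = b) → (c z = a ∨ c z = b) → κ y = κ z :=
        fun u v => h4 u (Finset.mem_univ _) v (Finset.mem_univ _)
      refine ⟨c, a, b, hab, h3', ?_⟩
      apply le_antisymm
      · -- more components would give more colourings
        have h5 := comp_ge hx c a b hab h3'
        have h6 := (Nat.pow_le_pow_iff_right (one_lt_two)).1 (h5.trans (hup G hG))
        omega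
      · -- every value of `κ` belongs to another component
        refine hS.trans ?_
        have h5 : ∀ w : S, ∃ y : {v | c v = a ∨ c v = b}, κ y = w := by
          intro w
          obtain ⟨y, _, hy1, hy2⟩ := hSw w.1 w.2
          exact ⟨⟨y, hy1⟩, hy2⟩
        choose r hr using h5
        have h6 : Function.Injective fun w : S =>
            (G.induce {v | c v = a ∨ c v = b}).connectedComponentMk (r w) := by
          intro w w' hw
          rw [SimpleGraph.ConnectedComponent.eq] at hw
          have h7 := comp_const h4' _ _ hw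
          rw [hr, hr] at h7
          exact Subtype.ext h7
        have h8 := Nat.card_le_card_of_injective _ h6
        rwa [Nat.card_eq_fintype_card, Fintype.card_coe] at h8
  · rintro (h | h)
    · obtain ⟨c₁, c₂, h3, h4⟩ := h
      refine a_ge (x := fun i => f i) hx ⟨c₁, c₂, fun u _ v _ => h3 u v, ?_⟩
      rw [← h4]
    · obtain ⟨c, a, b, hab, h3, h4⟩ := h
      have h5 := comp_ge (x := fun i => f i) hx c a b hab h3
      rw [h4] at h5
      exact h5

end Pool.Agent.Results.MP_e806f7_co.DenseExtremal
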